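import Pool.Agent.Work.MP_054302_co.Y.Final

theorem Pool.Agent.Results.MP_054302_co.AllRatios.result :
    ∀ A B p k l : ℕ, 1 ≤ B → B ≤ A → 1 ≤ p → p * B + A % B + 2 * (A / B) ≤ k + 1 → l ≤ p * A →
      ∃ C : ℝ, ∀ n : ℕ, k ≤ n → ∃ x : ℕ, Nd4bc9c34.minExtremalNumber n k l ≤ (x : ℕ∞) ∧
        (x : ℝ) ≤ C * (n : ℝ) ^ (2 - (B : ℝ) / (A : ℝ)) :=
  Pool.Agent.Work.MP_054302_co.Y.all_ratios
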