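import Pool.Agent.Work.MP_054302_co.Z.Whole

theorem Pool.Agent.Results.MP_054302_co.Gaps.result :
    ∀ k l l' i : ℕ, 1 ≤ k → k ≤ l → l' + i = k ^ 2 / 4 →
      (l : ℝ) + min (4 * Real.sqrt (l' : ℝ) + ((l' : ℝ) / (k : ℝ)) ^ 2)
        (if 2 * i < k then (i : ℝ) + 1
          else (i : ℝ) * (l' : ℝ) / ((l' : ℝ) + (i : ℝ)) + (k : ℝ) / 2) ≤ (l' : ℝ) →
      ∀ᶠ n : ℕ in Filter.atTop,
        Nd4bc9c34.minExtremalNumber n k l < Nd4bc9c34.minExtremalNumber n k l' :=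
  Pool.Agent.Work.MP_054302_co.Z.whole
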