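import Pool.Agent.Work.MP_054302_co.W.Main

theorem Pool.Agent.Results.MP_054302_co.SixEight.result :
    Filter.Tendsto
      (fun n : ℕ => ((Nd4bc9c34.minExtremalNumber n 6 8).toNat : ℝ) / (n : ℝ) ^ (3 / 2 : ℝ))
      Filter.atTop (nhds (2 / Real.sqrt 7)) :=
  Pool.Agent.Work.MP_054302_co.W.six_eight
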