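import Pool.Agent.Work.MP_054302_co.Steps

theorem Pool.Agent.Results.MP_054302_co.UpToSeven.result :
    ∀ k : ℕ, k ≤ 7 → ∀ᶠ n : ℕ in Filter.atTop,
      StrictMonoOn (Nd4bc9c34.minExtremalNumber n k) (Set.Ioc k (k ^ 2 / 4)) :=
  fun _ hk => Pool.Agent.Work.MP_054302_co.small hk
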